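import Pool.Agent.Helper72.EP.Spec2

namespace ErdPos

open Finset

/-- a path starting at an attachment of a hull and avoiding the other attachment meets the hull
only in its first vertex, if it ends in a torso vertex -/
lemma conf_meet (h1 : ST_PA) (h4 : ST_HUL) (h5 : ST_HU3) {V : Type} [Fintype V] [DecidableEq V]
    {G : SimpleGraph V} {F : Finset V → Prop} {C : Finset V} (hc : Ctx G F C) {A : Finset V}
    {u v w : V} {S : Finset V} {T : Finset (Sym2 V)} (hA : Hul G F C A) (hZ : Zt G C A = {u, v})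
    (hp : Pth G u w S T) (hS : S ⊆ C) (hv : v ∉ S) (hw : TVx G F C w) : S ∩ A = {u} := by
  have PA := h1 V G
  obtain ⟨hAC, -, -, -, -, hZA, -, -, -, hnb, -⟩ := (h4 V G F C hc).2 A hA
  have huA : u ∈ A := hZA (by rw [hZ]; simp)
  have huS := (PA.ends _ _ _ _ hp).1
  have hwS := (PA.ends _ _ _ _ hp).2
  by_cases hwu : w = u
  · subst hwu
    rw [(PA.triv _ _ _ hp).1]
    ext x
    simp only [mem_inter, mem_singleton]
    constructor
    · exact fun h => h.1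
    · rintro rfl; exact ⟨rfl, huA⟩
  have hwA : w ∉ A := by
    intro hwA
    have h := (h5 V G F C hc).2.1 A hA w hwA hw
    rw [hZ, mem_insert, mem_singleton] at h
    rcases h with h | h
    · exact hwu h
    · exact hv (h ▸ hwS)
  ext y
  simp only [mem_inter, mem_singleton]
  constructor
  · rintro ⟨hyS, hyA⟩
    by_contra hyu
    obtain ⟨S1, T1, S2, T2, hp1, hp2, hi, hun, -, -⟩ := PA.split _ _ y _ _ hp hyS
    have hu1 := (PA.ends _ _ _ _ hp1).1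
    have hy2 := (PA.ends _ _ _ _ hp2).1
    have hw2 := (PA.ends _ _ _ _ hp2).2
    have hu2 : u ∉ S2 := by
      intro hu2
      have : u ∈ S1 ∩ S2 := mem_inter.2 ⟨hu1, hu2⟩
      rw [hi, mem_singleton] at this
      exact hyu this.symm
    have hS2 : S2 ⊆ S := by rw [← hun]; exact subset_union_right
    have hconn := PA.conn _ _ _ _ hp2
    have hne : (S2 ∩ A).Nonempty := ⟨y, mem_inter.2 ⟨hy2, hyA⟩⟩
    have hneq : S2 ∩ A ≠ S2 := by
      intro h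
      rw [← h] at hw2
      exact hwA (mem_inter.1 hw2).2
    obtain ⟨a, ha, b, hb, hab⟩ := hconn.2 _ inter_subset_left hne hneq
    rw [mem_inter] at ha
    rw [mem_sdiff, mem_inter] at hb
    have haZ : a ∉ Zt G C A := by
      rw [hZ, mem_insert, mem_singleton]
      rintro (rfl | rfl)
      · exact hu2 ha.1
      · exact hv (hS2 ha.1)
    exact hb.2 ⟨hb.1, hnb a ha.2 haZ b (hS (hS2 hb.1)) hab⟩
  · rintro rfl
    exact ⟨huS, huA⟩

lemma conf_aux (h1 : ST_PA) (h2 : ST_CA) (h3 : ST_ROB) (h4 : ST_HUL) (h5 : ST_HU3) (h6 : ST_DEC)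
    {V : Type} [Fintype V] [DecidableEq V] (G : SimpleGraph V) (F : Finset V → Prop)
    (C : Finset V) (hc : Ctx G F C) (φ : Sym2 V → ℤ)
    (hφ : ∀ A u v S T, HP G F C A u v S T → 0 ≤ ∑ e ∈ T, φ e)
    (A : Finset V) (u v : V) (S : Finset V) (T : Finset (Sym2 V)) (A' : Finset V) (u' v' : V)
    (S' : Finset V) (T' : Finset (Sym2 V)) (hAA : A ≠ A') (hP : HP G F C A u v S T)
    (hP' : HP G F C A' u' v' S' T') (hT : ∑ e ∈ T, φ e = 1) (hT' : ∑ e ∈ T', φ e = 1)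
    (M1 M2 : Finset V) (hM1 : M1 ⊆ C) (hM2 : M2 ⊆ C) (hC1 : Conn G M1) (hC2 : Conn G M2)
    (hd : Disjoint M1 M2) (hu : u ∈ M1) (hv : v ∈ M2) (hu' : u' ∈ M1) (hv' : v' ∈ M2) :
    ∃ S0 T0, Cyc G S0 T0 ∧ S0 ⊆ S ∪ S' ∪ (M1 ∪ M2) ∧ 2 ≤ ∑ e ∈ T0, φ e := by
  have PA := h1 V G
  have CA := h2 V G
  obtain ⟨hA, hZ, huv, hp, hSA⟩ := hP
  obtain ⟨hA', hZ', huv', hp', hSA'⟩ := hP'
  have hAC := ((h4 V G F C hc).2 A hA).1
  have hAC' := ((h4 V G F C hc).2 A' hA').1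
  have hTu : TVx G F C u := ⟨A, hA, by rw [hZ]; simp⟩
  have hTv : TVx G F C v := ⟨A, hA, by rw [hZ]; simp⟩
  have hTu' : TVx G F C u' := ⟨A', hA', by rw [hZ']; simp⟩
  have hTv' : TVx G F C v' := ⟨A', hA', by rw [hZ']; simp⟩
  have hRob := (h5 V G F C hc).2.2
  have hdd := Finset.disjoint_left.1 hd
  obtain ⟨S1, T1, hS1, hp1⟩ := PA.ofconn M1 u u' hC1 hu hu'
  obtain ⟨S2, T2, hS2, hp2⟩ := PA.ofconn M2 v' v hC2 hv' hv
  -- intersections
  have hi1 : S1 ∩ A = {u} := conf_meet h1 h4 h5 hc hA hZ hp1 (hS1.trans hM1)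
    (fun h => hdd (hS1 h) hv) hTu'
  have hi1' : S1 ∩ A' = {u'} := conf_meet h1 h4 h5 hc hA' hZ' hp1.symm (hS1.trans hM1)
    (fun h => hdd (hS1 h) hv') hTu
  have hi2 : S2 ∩ A = {v} := conf_meet h1 h4 h5 hc hA (by rw [hZ, pair_comm]) hp2.symm
    (hS2.trans hM2) (fun h => hdd hu (hS2 h)) hTv'
  have hi2' : S2 ∩ A' = {v'} := conf_meet h1 h4 h5 hc hA' (by rw [hZ', pair_comm]) hp2
    (hS2.trans hM2) (fun h => hdd hu' (hS2 h)) hTv
  have hrS : ∀ x ∈ S, Rob G F C x :=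
    (h3 V G F C hc).1 u v S T hp (hSA.trans hAC) huv (hRob u hTu) (hRob v hTv)
  have hiS : ∀ x, x ∈ S → x ∈ S' → x ∈ Zt G C A ∧ x ∈ Zt G C A' := fun x hx hx' =>
    ⟨(h5 V G F C hc).1 A A' hA hA' hAA x (hrS x hx) (hSA hx) (hSA' hx'),
      (h5 V G F C hc).1 A' A hA' hA hAA.symm x (hrS x hx) (hSA' hx') (hSA hx)⟩
  -- the second path
  obtain ⟨hq1, hd1⟩ := PA.concat u u' v' S1 T1 S' T' hp1 hp' (by
    intro x hx
    rw [mem_inter] at hx
    have : x ∈ S1 ∩ A' := mem_inter.2 ⟨hx.1, hSA' hx.2⟩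
    rwa [hi1'] at this)
  obtain ⟨hq2, hd2⟩ := PA.concat u v' v (S1 ∪ S') (T1 ∪ T') S2 T2 hq1 hp2 (by
    intro x hx
    rw [mem_inter, mem_union] at hx
    rcases hx.1 with h | h
    · exact absurd (hS2 hx.2) (hdd (hS1 h))
    · have : x ∈ S2 ∩ A' := mem_inter.2 ⟨hx.2, hSA' h⟩
      rwa [hi2'] at this)
  have hinter : S ∩ (S1 ∪ S' ∪ S2) ⊆ {u, v} := by
    intro x hx
    rw [mem_inter, mem_union, mem_union] at hx
    obtain ⟨hxS, (h | h) | h⟩ := hx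
    · have : x ∈ S1 ∩ A := mem_inter.2 ⟨h, hSA hxS⟩
      rw [hi1, mem_singleton] at this
      rw [this]; simp
    · have := (hiS x hxS h).1
      rwa [hZ] at this
    · have : x ∈ S2 ∩ A := mem_inter.2 ⟨h, hSA hxS⟩
      rw [hi2, mem_singleton] at this
      rw [this]; simp
  have hTne : T ≠ T1 ∪ T' ∪ T2 := by
    intro hTT
    have hcard := PA.card _ _ _ _ hp'
    have hS'2 : 2 ≤ S'.card := by
      have h1 : ({u', v'} : Finset V) ⊆ S' := by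
        intro x hx
        rw [mem_insert, mem_singleton] at hx
        rcases hx with rfl | rfl
        · exact (PA.ends _ _ _ _ hp').1
        · exact (PA.ends _ _ _ _ hp').2
      have h2 := card_le_card h1
      rwa [card_pair huv'] at h2
    have hT'ne : T'.Nonempty := by
      rw [← card_pos]; omega
    obtain ⟨e, he⟩ := hT'ne
    have heT : e ∈ T := by
      rw [hTT]
      exact mem_union_left _ (mem_union_right _ he)
    obtain ⟨x, hx, y, hy, hxy, hexy⟩ := PA.tmem _ _ _ _ hp' e he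
    obtain ⟨x2, hx2, y2, hy2, hxy2, hexy2⟩ := PA.tmem _ _ _ _ hp e heT
    have hxS : x ∈ S ∧ y ∈ S := by
      rw [hexy, Sym2.eq_iff] at hexy2
      rcases hexy2 with ⟨rfl, rfl⟩ | ⟨rfl, rfl⟩
      · exact ⟨hx2, hy2⟩
      · exact ⟨hy2, hx2⟩
    have hcd := fun B hB => ((h4 V G F C hc).2 B hB).2.2.2.2.2.2.2.1
    have e1 := hcd A hA x y (hrS x hxS.1) (hrS y hxS.2) hxy.ne (hSA hxS.1) (hSA hxS.2)
    have e2 := hcd A' hA' x y (hrS x hxS.1) (hrS y hxS.2) hxy.ne (hSA' hx) (hSA' hy)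
    exact hAA (e1.symm.trans e2)
  obtain ⟨hcyc, hd3⟩ := CA.mk2 u v S T _ _ hp hq2 huv hinter hTne
  refine ⟨_, _, hcyc, ?_, ?_⟩
  · intro x hx
    simp only [mem_union] at hx ⊢
    rcases hx with h | (h | h) | h
    · exact Or.inl (Or.inl h)
    · exact Or.inr (Or.inl (hS1 h))
    · exact Or.inl (Or.inr h)
    · exact Or.inr (Or.inr (hS2 h))
  · have hdec := (h6 V G F C hc ℤ φ (AddSubmonoid.nonneg ℤ)
      (fun A u v S T h => (AddSubmonoid.mem_nonneg).2 (hφ A u v S T h))).1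
    have g1 : 0 ≤ ∑ e ∈ T1, φ e :=
      AddSubmonoid.mem_nonneg.1 (hdec u u' S1 T1 hp1 (hS1.trans hM1) hTu hTu')
    have g2 : 0 ≤ ∑ e ∈ T2, φ e :=
      AddSubmonoid.mem_nonneg.1 (hdec v' v S2 T2 hp2 (hS2.trans hM2) hTv' hTv)
    rw [sum_union hd3, sum_union hd2, sum_union hd1, hT, hT']
    linarith

theorem st_CONF (h1 : ST_PA) (h2 : ST_CA) (h3 : ST_ROB) (h4 : ST_HUL) (h5 : ST_HU3)
    (h6 : ST_DEC) : ST_CONF := by
  intro V _ _ G F C hc φ hφ A u v S T A' u' v' S' T' hAA hP hP' hT hT' M1 M2 hM1 hM2 hC1 hC2 hd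
    hu hv hor
  rcases hor with ⟨hu', hv'⟩ | ⟨hv', hu'⟩
  · exact conf_aux h1 h2 h3 h4 h5 h6 G F C hc φ hφ A u v S T A' u' v' S' T' hAA hP hP' hT hT'
      M1 M2 hM1 hM2 hC1 hC2 hd hu hv hu' hv'
  · have hP2 : HP G F C A' v' u' S' T' :=
      ⟨hP'.1, by rw [hP'.2.1, pair_comm], hP'.2.2.1.symm, hP'.2.2.2.1.symm, hP'.2.2.2.2⟩
    exact conf_aux h1 h2 h3 h4 h5 h6 G F C hc φ hφ A u v S T A' v' u' S' T' hAA hP hP2 hT hT'
      M1 M2 hM1 hM2 hC1 hC2 hd hu hv hv' hu'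

end ErdPos
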